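import Pool.Agent.helper36.NF.SpecD

/-! Row nf:GR2 (MP_37e5fa_nt) -/

set_option autoImplicit false

open Polynomial Filter

namespace Pool.Agent.NoFormula

theorem GR2_bound (Q : ℤ[X]) : ∃ k : ℕ, ∀ K ≥ k, ∀ᶠ m : ℕ in atTop, |Q.eval (m : ℤ)| ≤ (m : ℤ) ^ K := by
  refine ⟨Q.natDegree + 1, fun K hK => ?_⟩
  filter_upwards [eventually_ge_atTop (∑ i ∈ Finset.range (Q.natDegree + 1), (Q.coeff i).natAbs),
    eventually_ge_atTop 1] with m h1 h2
  have hm1 : (1 : ℤ) ≤ m := by exact_mod_cast h2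
  have h3 : |Q.eval (m : ℤ)| ≤ ∑ i ∈ Finset.range (Q.natDegree + 1), |Q.coeff i| * (m : ℤ) ^ Q.natDegree := by
    rw [eval_eq_sum_range]
    refine (Finset.abs_sum_le_sum_abs _ _).trans (Finset.sum_le_sum fun i hi => ?_)
    rw [abs_mul, abs_pow, abs_of_nonneg (by linarith : (0 : ℤ) ≤ m)]
    refine mul_le_mul_of_nonneg_left ?_ (abs_nonneg _)
    exact pow_le_pow_right₀ hm1 (Nat.le_of_lt_succ (Finset.mem_range.1 hi))
  have h4 : ∑ i ∈ Finset.range (Q.natDegree + 1), |Q.coeff i| ≤ (m : ℤ) := by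
    have h5 : ∑ i ∈ Finset.range (Q.natDegree + 1), |Q.coeff i| =
        ((∑ i ∈ Finset.range (Q.natDegree + 1), (Q.coeff i).natAbs : ℕ) : ℤ) := by
      push_cast
      rfl
    rw [h5]
    exact_mod_cast h1
  rw [← Finset.sum_mul] at h3
  calc |Q.eval (m : ℤ)| ≤ (∑ i ∈ Finset.range (Q.natDegree + 1), |Q.coeff i|) * (m : ℤ) ^ Q.natDegree := h3
    _ ≤ m * (m : ℤ) ^ Q.natDegree := mul_le_mul_of_nonneg_right h4 (by positivity)
    _ = (m : ℤ) ^ (Q.natDegree + 1) := by ring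
    _ ≤ (m : ℤ) ^ K := pow_le_pow_right₀ hm1 hK

theorem GR2_zero : SingleExp (fun _ => 0) :=
  ⟨[], fun _ hx => absurd hx List.not_mem_nil, Eventually.of_forall fun _ => rfl⟩

theorem GR2_add (f g : ℕ → ℤ) (hf : SingleExp f) (hg : SingleExp g) :
    SingleExp (fun m => f m + g m) := by
  obtain ⟨L1, h1, h2⟩ := hf
  obtain ⟨L2, h3, h4⟩ := hg
  refine ⟨L1 ++ L2, ?_, ?_⟩
  · intro x hx
    rw [List.mem_append] at hx
    rcases hx with hx | hx
    · exact h1 x hx
    · exact h3 x hx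
  · filter_upwards [h2, h4] with m h5 h6
    rw [List.map_append, List.sum_append, h5, h6]

theorem GR2_term (p Q : ℤ[X]) (hQ : ∀ᶠ m : ℕ in atTop, 0 ≤ Q.eval (m : ℤ)) :
    SingleExp (fun m => p.eval (m : ℤ) * 2 ^ (Q.eval (m : ℤ)).toNat) := by
  refine ⟨[(p, Q)], ?_, ?_⟩
  · intro x hx
    rw [List.mem_singleton] at hx
    rw [hx]
    exact hQ
  · refine Eventually.of_forall fun m => ?_
    simp

theorem GR2_list (J : ℕ) (L : List (ℤ[X] × ℕ × ℤ[X])) :
    (∀ x ∈ L, ∀ᶠ m : ℕ in atTop, 0 ≤ (x.2.1 : ℤ) * 2 ^ (m - J) + x.2.2.eval (m : ℤ)) →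
    ∃ K0 : ℕ, ∀ K ≥ K0, ∃ (n : ℕ) (B : ℕ → ℕ → ℤ), (∀ c, SingleExp (B c)) ∧
      (∀ c, n < c → ∀ m, B c m = 0) ∧ ∀ᶠ m : ℕ in atTop,
      2 ^ (m ^ K) * (L.map (fun x => x.1.eval (m : ℤ) *
        2 ^ ((x.2.1 : ℤ) * 2 ^ (m - J) + x.2.2.eval (m : ℤ)).toNat)).sum =
      ∑ c ∈ Finset.range (n + 1), B c m * (2 ^ (2 ^ (m - J))) ^ c := by
  induction L with
  | nil =>
    intro _
    refine ⟨0, fun K _ => ⟨0, fun _ _ => 0, fun _ => GR2_zero, fun _ _ _ => rfl, ?_⟩⟩
    refine Eventually.of_forall fun m => ?_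
    simp
  | cons x L ih =>
    intro h
    obtain ⟨K1, hK1⟩ := ih fun y hy => h y (List.mem_cons_of_mem _ hy)
    obtain ⟨K2, hK2⟩ := GR2_bound x.2.2
    refine ⟨max K1 K2, fun K hK => ?_⟩
    obtain ⟨n, B, hB, hB0, hBm⟩ := hK1 K ((le_max_left _ _).trans hK)
    have hQ := hK2 K ((le_max_right _ _).trans hK)
    have hx := h x List.mem_cons_self
    have hE : SingleExp (fun m => x.1.eval (m : ℤ) *
        2 ^ ((X ^ K + x.2.2 : ℤ[X]).eval (m : ℤ)).toNat) := by
      refine GR2_term x.1 (X ^ K + x.2.2) ?_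
      filter_upwards [hQ] with m h1
      rw [eval_add, eval_pow, eval_X]
      have := (abs_le.1 h1).1
      linarith
    refine ⟨max n x.2.1, fun c m => B c m + (if c = x.2.1 then x.1.eval (m : ℤ) *
        2 ^ ((X ^ K + x.2.2 : ℤ[X]).eval (m : ℤ)).toNat else 0), ?_, ?_, ?_⟩
    · intro c
      by_cases hc : c = x.2.1
      · simp only [if_pos hc]
        exact GR2_add _ _ (hB c) hE
      · simp only [if_neg hc]
        exact GR2_add _ _ (hB c) GR2_zero
    · intro c hc m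
      have h1 : n < c := lt_of_le_of_lt (le_max_left _ _) hc
      have h2 : x.2.1 < c := lt_of_le_of_lt (le_max_right _ _) hc
      dsimp only
      rw [hB0 c h1, if_neg h2.ne', add_zero]
    · filter_upwards [hBm, hQ, hx] with m h1 h2 h3
      rw [List.map_cons, List.sum_cons, mul_add, h1]
      have h4 : ∑ c ∈ Finset.range (max n x.2.1 + 1), (B c m + (if c = x.2.1 then x.1.eval (m : ℤ) *
          2 ^ ((X ^ K + x.2.2 : ℤ[X]).eval (m : ℤ)).toNat else 0)) * (2 ^ (2 ^ (m - J))) ^ c =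
          ∑ c ∈ Finset.range (n + 1), B c m * (2 ^ (2 ^ (m - J))) ^ c + x.1.eval (m : ℤ) *
            2 ^ ((X ^ K + x.2.2 : ℤ[X]).eval (m : ℤ)).toNat * (2 ^ (2 ^ (m - J))) ^ x.2.1 := by
        simp only [add_mul]
        rw [Finset.sum_add_distrib]
        congr 1
        · symm
          refine Finset.sum_subset ?_ ?_
          · intro c hc
            rw [Finset.mem_range] at hc ⊢
            have := le_max_left n x.2.1
            omega
          · intro c _ hc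
            rw [Finset.mem_range, not_lt] at hc
            rw [hB0 c (by omega), zero_mul]
        · rw [Finset.sum_eq_single x.2.1]
          · rw [if_pos rfl]
          · intro c _ hc
            rw [if_neg hc, zero_mul]
          · intro hc
            rw [Finset.mem_range, not_lt] at hc
            have := le_max_right n x.2.1
            omega
      rw [h4, add_comm]
      congr 1
      have h5 : (0 : ℤ) ≤ (m : ℤ) ^ K + x.2.2.eval (m : ℤ) := by
        have := (abs_le.1 h2).1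
        linarith
      have h6 : m ^ K + ((x.2.1 : ℤ) * 2 ^ (m - J) + x.2.2.eval (m : ℤ)).toNat =
          ((m : ℤ) ^ K + x.2.2.eval (m : ℤ)).toNat + 2 ^ (m - J) * x.2.1 := by
        have h7 : ((m ^ K : ℕ) : ℤ) = (m : ℤ) ^ K := by push_cast; ring
        have h8 : ((2 ^ (m - J) * x.2.1 : ℕ) : ℤ) = (x.2.1 : ℤ) * 2 ^ (m - J) := by push_cast; ring
        rw [← h7] at h5 ⊢
        rw [← h8] at h3 ⊢
        omega
      rw [eval_add, eval_pow, eval_X, ← pow_mul, mul_assoc, ← pow_add, ← h6, pow_add]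
      ring

theorem GR2 : GR2_stmt := by
  intro J g hg
  obtain ⟨L, h1, h2⟩ := hg
  obtain ⟨K0, hK0⟩ := GR2_list J L h1
  refine ⟨K0, fun K hK => ?_⟩
  obtain ⟨n, B, hB, -, hBm⟩ := hK0 K hK
  refine ⟨n, B, hB, ?_⟩
  filter_upwards [hBm, h2] with m h3 h4
  rw [h4, h3]

end Pool.Agent.NoFormula
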