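import Pool.Agent.helper36.NF.Spec

/-! Row nf:NRM (MP_37e5fa_nt) -/

set_option autoImplicit false

open Polynomial Filter

namespace Pool.Agent.NoFormula

theorem NRM_sm_cons (x : ℤ[X] × (ℕ → ℤ)) (L : List (ℤ[X] × (ℕ → ℤ))) (m : ℕ) :
    sm (x :: L) m = tm x m + sm L m := by
  unfold sm
  rw [List.map_cons, List.sum_cons]

theorem NRM_merge (x y : ℤ[X] × (ℕ → ℤ)) (c : ℤ) (hc : 0 ≤ c)
    (h : ∀ᶠ m : ℕ in atTop, x.2 m = y.2 m + c) (hy : ∀ᶠ m : ℕ in atTop, 0 ≤ y.2 m) :
    ∀ᶠ m : ℕ in atTop, tm x m + tm y m = tm (C (2 ^ c.toNat) * x.1 + y.1, y.2) m := by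
  filter_upwards [h, hy] with m h1 h2
  unfold tm
  dsimp only
  rw [h1, Int.toNat_add h2 hc, pow_add, eval_add, eval_mul, eval_C]
  ring

theorem NRM_ins (k : ℕ) (hLVA : LVA_stmt) (hD : ∀ g, Lev k g → Dich g) (x : ℤ[X] × (ℕ → ℤ))
    (hx0 : x.1 ≠ 0) (hx : Lev k x.2) (hx2 : ∀ᶠ m : ℕ in atTop, 0 ≤ x.2 m)
    (N : List (ℤ[X] × (ℕ → ℤ))) (hN : NF k N) :
    ∃ N' : List (ℤ[X] × (ℕ → ℤ)), NF k N' ∧ (∀ᶠ m : ℕ in atTop, sm N' m = tm x m + sm N m) ∧
      ∀ z ∈ N', z.2 = x.2 ∨ ∃ y ∈ N, z.2 = y.2 := by
  induction N with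
  | nil =>
    refine ⟨[x], ⟨?_, List.pairwise_singleton _ _⟩, ?_, ?_⟩
    · intro z hz
      rw [List.mem_singleton] at hz
      subst hz
      exact ⟨hx0, hx, hx2⟩
    · refine Eventually.of_forall fun m => ?_
      rw [NRM_sm_cons]
    · intro z hz
      rw [List.mem_singleton] at hz
      left
      rw [hz]
  | cons y N ih =>
    obtain ⟨hN1, hN2⟩ := hN
    rw [List.pairwise_cons] at hN2
    obtain ⟨hy0, hy, hy2⟩ := hN1 y (List.mem_cons_self)
    have hN1' : ∀ z ∈ N, z.1 ≠ 0 ∧ Lev k z.2 ∧ ∀ᶠ m : ℕ in atTop, 0 ≤ z.2 m :=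
      fun z hz => hN1 z (List.mem_cons_of_mem _ hz)
    have hdiff : Lev k (fun m => x.2 m + -y.2 m) := hLVA.1 k x.2 _ hx (hLVA.2.1 k y.2 hy)
    rcases hD _ hdiff with ⟨c, hc⟩ | ⟨C0, hC0⟩ | ⟨C0, hC0⟩
    · rcases le_total 0 c with h0 | h0
      · -- merge into y
        have hm := NRM_merge x y c h0 (by filter_upwards [hc] with m h; linarith) hy2
        by_cases hp : C (2 ^ c.toNat) * x.1 + y.1 = 0
        · refine ⟨N, ⟨hN1', hN2.2⟩, ?_, ?_⟩
          · filter_upwards [hm] with m h
            rw [NRM_sm_cons, ← add_assoc, h, hp]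
            unfold tm
            simp
          · intro z hz
            exact Or.inr ⟨z, List.mem_cons_of_mem _ hz, rfl⟩
        · refine ⟨(C (2 ^ c.toNat) * x.1 + y.1, y.2) :: N, ⟨?_, ?_⟩, ?_, ?_⟩
          · intro z hz
            rw [List.mem_cons] at hz
            rcases hz with rfl | hz
            · exact ⟨hp, hy, hy2⟩
            · exact hN1' z hz
          · rw [List.pairwise_cons]
            exact ⟨hN2.1, hN2.2⟩
          · filter_upwards [hm] with m h
            rw [NRM_sm_cons, NRM_sm_cons, ← add_assoc, h]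
          · intro z hz
            rw [List.mem_cons] at hz
            rcases hz with rfl | hz
            · exact Or.inr ⟨y, List.mem_cons_self, rfl⟩
            · exact Or.inr ⟨z, List.mem_cons_of_mem _ hz, rfl⟩
      · -- merge into x
        have hm := NRM_merge y x (-c) (by linarith) (by filter_upwards [hc] with m h; linarith) hx2
        by_cases hp : C (2 ^ (-c).toNat) * y.1 + x.1 = 0
        · refine ⟨N, ⟨hN1', hN2.2⟩, ?_, ?_⟩
          · filter_upwards [hm] with m h
            rw [NRM_sm_cons, ← add_assoc, add_comm (tm x m), h, hp]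
            unfold tm
            simp
          · intro z hz
            exact Or.inr ⟨z, List.mem_cons_of_mem _ hz, rfl⟩
        · refine ⟨(C (2 ^ (-c).toNat) * y.1 + x.1, x.2) :: N, ⟨?_, ?_⟩, ?_, ?_⟩
          · intro z hz
            rw [List.mem_cons] at hz
            rcases hz with rfl | hz
            · exact ⟨hp, hx, hx2⟩
            · exact hN1' z hz
          · rw [List.pairwise_cons]
            refine ⟨fun z hz => ?_, hN2.2⟩
            obtain ⟨C1, hC1⟩ := hN2.1 z hz
            refine ⟨C1 - c, ?_⟩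
            filter_upwards [hC1, hc] with m h1 h2
            linarith
          · filter_upwards [hm] with m h
            rw [NRM_sm_cons, NRM_sm_cons, ← add_assoc, add_comm (tm x m), h]
          · intro z hz
            rw [List.mem_cons] at hz
            rcases hz with rfl | hz
            · exact Or.inl rfl
            · exact Or.inr ⟨z, List.mem_cons_of_mem _ hz, rfl⟩
    · -- x in front
      refine ⟨x :: y :: N, ⟨?_, ?_⟩, ?_, ?_⟩
      · intro z hz
        rw [List.mem_cons] at hz
        rcases hz with rfl | hz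
        · exact ⟨hx0, hx, hx2⟩
        · exact hN1 z hz
      · rw [List.pairwise_cons]
        refine ⟨fun z hz => ?_, List.pairwise_cons.2 hN2⟩
        rw [List.mem_cons] at hz
        rcases hz with rfl | hz
        · refine ⟨C0, ?_⟩
          filter_upwards [hC0] with m h
          linarith
        · obtain ⟨C1, hC1⟩ := hN2.1 z hz
          refine ⟨C0 + C1, ?_⟩
          filter_upwards [hC0, hC1, eventually_ge_atTop 0] with m h1 h2 h3
          have h4 : (0 : ℤ) ≤ m := by positivity
          linarith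
      · exact Eventually.of_forall fun m => NRM_sm_cons _ _ _
      · intro z hz
        rw [List.mem_cons] at hz
        rcases hz with rfl | hz
        · exact Or.inl rfl
        · exact Or.inr ⟨z, hz, rfl⟩
    · -- y in front
      obtain ⟨N', hN', hsm, hz'⟩ := ih ⟨hN1', hN2.2⟩
      refine ⟨y :: N', ⟨?_, ?_⟩, ?_, ?_⟩
      · intro z hz
        rw [List.mem_cons] at hz
        rcases hz with rfl | hz
        · exact ⟨hy0, hy, hy2⟩
        · exact hN'.1 z hz
      · rw [List.pairwise_cons]
        refine ⟨fun z hz => ?_, hN'.2⟩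
        rcases hz' z hz with h | ⟨y', hy', h⟩
        · refine ⟨C0, ?_⟩
          filter_upwards [hC0] with m h1
          rw [h]
          linarith
        · obtain ⟨C1, hC1⟩ := hN2.1 y' hy'
          refine ⟨C1, ?_⟩
          filter_upwards [hC1] with m h1
          rw [h]
          exact h1
      · filter_upwards [hsm] with m h
        rw [NRM_sm_cons, NRM_sm_cons, h]
        ring
      · intro z hz
        rw [List.mem_cons] at hz
        rcases hz with rfl | hz
        · exact Or.inr ⟨z, List.mem_cons_self, rfl⟩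
        · rcases hz' z hz with h | ⟨y', hy', h⟩
          · exact Or.inl h
          · exact Or.inr ⟨y', List.mem_cons_of_mem _ hy', h⟩

theorem NRM (hLVA : LVA_stmt) : NRM_stmt := by
  intro k hD f hf
  obtain ⟨L, hL, hfL⟩ := hf
  have key : ∀ L : List (ℤ[X] × (ℕ → ℤ)), (∀ x ∈ L, Lev k x.2 ∧ ∀ᶠ m : ℕ in atTop, 0 ≤ x.2 m) →
      ∃ N : List (ℤ[X] × (ℕ → ℤ)), NF k N ∧ ∀ᶠ m : ℕ in atTop, sm L m = sm N m := by
    intro L
    induction L with
    | nil =>
      intro _
      refine ⟨[], ⟨?_, List.Pairwise.nil⟩, Eventually.of_forall fun m => rfl⟩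
      intro x hx
      exact absurd hx (List.not_mem_nil)
    | cons x L ih =>
      intro h
      obtain ⟨N, hN, hs⟩ := ih fun z hz => h z (List.mem_cons_of_mem _ hz)
      by_cases hx0 : x.1 = 0
      · refine ⟨N, hN, ?_⟩
        filter_upwards [hs] with m h1
        rw [NRM_sm_cons, h1]
        unfold tm
        rw [hx0]
        simp
      · obtain ⟨hx1, hx2⟩ := h x List.mem_cons_self
        obtain ⟨N', hN', hs', -⟩ := NRM_ins k hLVA hD x hx0 hx1 hx2 N hN
        refine ⟨N', hN', ?_⟩
        filter_upwards [hs, hs'] with m h1 h2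
        rw [NRM_sm_cons, h1, h2]
  obtain ⟨N, hN, hs⟩ := key L hL
  refine ⟨N, hN, ?_⟩
  filter_upwards [hfL, hs] with m h1 h2
  rw [h1, h2]

end Pool.Agent.NoFormula
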